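import Mathlib

set_option linter.unusedVariables false

open Filter Real

namespace Pool.Agent.Helper552.Nev

/-- the frequencies -/
noncomputable def A (k : ℕ) : ℝ := 4 ^ (2 ^ k)

/-- the linear exponents -/
noncomputable def E (k : ℕ) (x : ℝ) : ℝ := A k * x - A k ^ 2

/-- the terms -/
noncomputable def tm (k : ℕ) (z : ℂ) : ℂ := Complex.exp ((A k : ℂ) * z - (A k : ℂ) ^ 2)

/-- the basic entire function -/
noncomputable def g (z : ℂ) : ℂ := ∑' k, tm k z

lemma A_succ (k : ℕ) : A (k + 1) = A k ^ 2 := by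
  unfold A; rw [pow_succ, pow_mul]

lemma A_ge (k : ℕ) : (k : ℝ) + 4 ≤ A k := by
  induction k with
  | zero => simp [A]
  | succ k ih =>
    rw [A_succ]
    push_cast
    have : (0:ℝ) ≤ k := Nat.cast_nonneg k
    nlinarith

lemma A_pos (k : ℕ) : 0 < A k := by
  have := A_ge k
  have : (0:ℝ) ≤ k := Nat.cast_nonneg k
  linarith

lemma A_ge4 (k : ℕ) : 4 ≤ A k := by
  have := A_ge k
  have : (0:ℝ) ≤ k := Nat.cast_nonneg k
  linarith

lemma A_strictMono : StrictMono A := by
  apply strictMono_nat_of_lt_succ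
  intro k
  rw [A_succ]
  have := A_ge4 k
  nlinarith

lemma A_gap {j k : ℕ} (h : j < k) : (k : ℝ) + 2 ≤ A k - A j ∧ (j : ℝ) + 2 ≤ A k - A j := by
  have h1 : A (j + 1) ≤ A k := A_strictMono.monotone h
  rw [A_succ] at h1
  have h2 := A_ge j
  have h3 := A_ge4 j
  have hj : (0:ℝ) ≤ j := Nat.cast_nonneg j
  constructor
  · obtain ⟨m, rfl⟩ : ∃ m, k = m + 1 := ⟨k - 1, by omega⟩
    have h4 : A j ≤ A m := A_strictMono.monotone (by omega)
    rw [A_succ]
    have h5 := A_ge m
    have h6 := A_ge4 m
    push_cast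
    nlinarith
  · nlinarith

lemma E_diff (j k : ℕ) (x : ℝ) : E k x - E j x = (A k - A j) * (x - (A k + A j)) := by
  unfold E; ring

lemma norm_tm (k : ℕ) (z : ℂ) : ‖tm k z‖ = exp (E k z.re) := by
  unfold tm E
  rw [Complex.norm_exp, Complex.sub_re, Complex.mul_re, ← Complex.ofReal_pow, Complex.ofReal_re,
    Complex.ofReal_im, Complex.ofReal_re]
  congr 1
  ring

lemma E_mono (k : ℕ) {x y : ℝ} (h : x ≤ y) : E k x ≤ E k y := by
  unfold E
  have := A_pos k
  nlinarith

/-- below the crossing points the later terms are small -/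
lemma E_later {j k : ℕ} (h : k < j) {x : ℝ} (hx : x ≤ A k + A j - 1) :
    E j x ≤ E k x - ((j : ℝ) + 2) := by
  have h1 := E_diff k j x
  have h2 := (A_gap h).1
  have h3 : x - (A j + A k) ≤ -1 := by linarith
  have h4 : (0:ℝ) ≤ j := Nat.cast_nonneg j
  nlinarith

/-- above the crossing points the earlier terms are small -/
lemma E_earlier {j k : ℕ} (h : j < k) {x : ℝ} (hx : A k + A j + 1 ≤ x) :
    E j x ≤ E k x - ((j : ℝ) + 2) := by
  have h1 := E_diff j k x
  have h2 := (A_gap h).2
  have h3 : 1 ≤ x - (A k + A j) := by linarith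
  have h4 : (0:ℝ) ≤ j := Nat.cast_nonneg j
  nlinarith

lemma exp_neg_le (j : ℕ) : exp (-((j : ℝ) + 2)) ≤ (1 / 4) * (1 / 2) ^ j := by
  have h1 : (2 : ℝ) ≤ exp 1 := by
    have := Real.add_one_le_exp (1:ℝ); linarith
  have h2 : exp (-1 : ℝ) ≤ 1 / 2 := by
    rw [Real.exp_neg, one_div]
    exact inv_anti₀ (by norm_num) h1
  have h3 : exp (-((j : ℝ) + 2)) = exp (-1) ^ (j + 2) := by
    rw [← Real.exp_nat_mul]; congr 1; push_cast; ring
  rw [h3]
  calc exp (-1) ^ (j + 2) ≤ (1 / 2) ^ (j + 2) := by
        apply pow_le_pow_left₀ (exp_pos _).le h2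
    _ = (1 / 4) * (1 / 2) ^ j := by rw [pow_add]; ring

lemma summable_quarter : Summable (fun j : ℕ => (1 / 4 : ℝ) * (1 / 2) ^ j) :=
  (summable_geometric_of_lt_one (by norm_num) (by norm_num)).mul_left _

lemma tsum_quarter : ∑' j : ℕ, (1 / 4 : ℝ) * (1 / 2) ^ j = 1 / 2 := by
  rw [tsum_mul_left, tsum_geometric_of_lt_one (by norm_num) (by norm_num)]
  norm_num

lemma summable_expE (x : ℝ) : Summable (fun k : ℕ => exp (E k x)) := by
  have h : Tendsto A atTop atTop := by
    refine tendsto_atTop_mono A_ge ?_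
    exact tendsto_atTop_add_const_right _ _ tendsto_natCast_atTop_atTop
  have hs : Summable (fun k : ℕ => (1 / 4 : ℝ) * (1 / 2) ^ k) := summable_quarter
  refine Summable.of_norm_bounded_eventually_nat hs ?_
  filter_upwards [h.eventually_ge_atTop (x + 1)] with k hk
  rw [Real.norm_of_nonneg (exp_pos _).le]
  refine le_trans ?_ (exp_neg_le k)
  apply Real.exp_le_exp.mpr
  unfold E
  have h1 := A_ge k
  have h2 := A_ge4 k
  have h3 : (0:ℝ) ≤ k := Nat.cast_nonneg k
  nlinarith

lemma summable_tm (z : ℂ) : Summable (fun k : ℕ => tm k z) := by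
  apply Summable.of_norm
  simp_rw [norm_tm]
  exact summable_expE _

lemma norm_g_le (z : ℂ) : ‖g z‖ ≤ ∑' k, exp (E k z.re) := by
  unfold g
  refine (norm_tsum_le_tsum_norm ?_).trans ?_
  · simp_rw [norm_tm]; exact summable_expE _
  · simp_rw [norm_tm]; exact le_rfl

lemma differentiable_g : Differentiable ℂ g := by
  intro z
  have hU : IsOpen {w : ℂ | w.re < z.re + 1} := isOpen_lt Complex.continuous_re continuous_const
  have h := Complex.differentiableOn_tsum_of_summable_norm (F := tm)
    (U := {w : ℂ | w.re < z.re + 1}) (summable_expE (z.re + 1))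
    (fun k => by
      intro w hw
      apply DifferentiableAt.differentiableWithinAt
      unfold tm
      fun_prop) hU
    (fun k w hw => by
      rw [norm_tm]
      apply Real.exp_le_exp.mpr
      exact E_mono k (le_of_lt hw))
  exact (h z (by simp)).differentiableAt (hU.mem_nhds (by simp))

/-- dominance of the `k`-th term -/
lemma norm_g_sub_le {k : ℕ} {z : ℂ} (h1 : ∀ j < k, A k + A j + 1 ≤ z.re)
    (h2 : ∀ j, k < j → z.re ≤ A k + A j - 1) :
    ‖g z - tm k z‖ ≤ (1 / 2) * exp (E k z.re) := by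
  have hs := summable_tm z
  have e1 : g z - tm k z = ∑' j, (if j = k then 0 else tm j z) := by
    unfold g
    rw [hs.tsum_eq_add_tsum_ite k]
    ring
  have hb : ∀ j, ‖(if j = k then 0 else tm j z)‖ ≤ exp (E k z.re) * ((1 / 4) * (1 / 2) ^ j) := by
    intro j
    by_cases hj : j = k
    · simp only [hj, if_true, norm_zero]
      positivity
    · simp only [hj, if_false]
      rw [norm_tm]
      have : E j z.re ≤ E k z.re - ((j : ℝ) + 2) := by
        rcases lt_or_gt_of_ne hj with h | h
        · exact E_earlier h (h1 j h)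
        · exact E_later h (h2 j h)
      calc exp (E j z.re) ≤ exp (E k z.re + -((j : ℝ) + 2)) := by
            apply Real.exp_le_exp.mpr; linarith
        _ = exp (E k z.re) * exp (-((j : ℝ) + 2)) := Real.exp_add _ _
        _ ≤ _ := mul_le_mul_of_nonneg_left (exp_neg_le j) (exp_pos _).le
  rw [e1]
  have hsum : HasSum (fun j : ℕ => exp (E k z.re) * ((1 / 4 : ℝ) * (1 / 2) ^ j))
      (exp (E k z.re) * (1 / 2)) := by
    have := summable_quarter.hasSum
    rw [tsum_quarter] at this
    exact this.mul_left _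
  refine (tsum_of_norm_bounded hsum hb).trans ?_
  linarith

lemma norm_g_ge {k : ℕ} {z : ℂ} (h1 : ∀ j < k, A k + A j + 1 ≤ z.re)
    (h2 : ∀ j, k < j → z.re ≤ A k + A j - 1) :
    (1 / 2) * exp (E k z.re) ≤ ‖g z‖ := by
  have h := norm_g_sub_le h1 h2
  have h3 : ‖tm k z‖ ≤ ‖g z‖ + ‖g z - tm k z‖ := by
    have := norm_sub_le (g z) (g z - tm k z)
    simpa using this
  rw [norm_tm] at h3
  linarith

/-- in the left half plane `g` is bounded by one -/
lemma norm_g_le_one {z : ℂ} (hz : z.re ≤ 0) : ‖g z‖ ≤ 1 := by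
  have h := norm_g_sub_le (k := 0) (z := z) (by simp)
    (fun j hj => by
      have := A_ge4 0
      have := A_ge4 j
      linarith)
  have h3 : ‖g z‖ ≤ ‖g z - tm 0 z‖ + ‖tm 0 z‖ := by
    have := norm_add_le (g z - tm 0 z) (tm 0 z)
    simpa using this
  rw [norm_tm] at h3
  have h4 : exp (E 0 z.re) ≤ 1 / 4 := by
    have h5 : E 0 z.re ≤ -(((0 : ℕ) : ℝ) + 2) := by
      unfold E
      have h6 := A_ge4 0
      push_cast
      nlinarith
    have := (Real.exp_le_exp.mpr h5).trans (exp_neg_le 0)
    simpa using this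
  linarith

/-- global upper bound at scale `k` -/
lemma norm_g_upper {k : ℕ} {r : ℝ} (h1 : ∀ j < k, A k + A j + 1 ≤ r)
    (h2 : ∀ j, k + 1 < j → r ≤ A (k + 1) + A j - 1) {z : ℂ} (hz : z.re ≤ r) :
    ‖g z‖ ≤ 3 * exp (E k r + (A (k + 1) - A k) * max (z.re - (A k + A (k + 1))) 0) := by
  set U := E k r + (A (k + 1) - A k) * max (z.re - (A k + A (k + 1))) 0 with hU
  have hD : 0 ≤ A (k + 1) - A k := by
    have := A_strictMono (Nat.lt_succ_self k); linarith
  have hmax : 0 ≤ (A (k + 1) - A k) * max (z.re - (A k + A (k + 1))) 0 :=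
    mul_nonneg hD (le_max_right _ _)
  have hk : E k z.re ≤ U := by
    have := E_mono k hz
    linarith
  have hk1 : E (k + 1) z.re ≤ U := by
    have e := E_diff k (k + 1) z.re
    have h3 : (A (k + 1) - A k) * (z.re - (A k + A (k + 1)))
        ≤ (A (k + 1) - A k) * max (z.re - (A k + A (k + 1))) 0 :=
      mul_le_mul_of_nonneg_left (le_max_left _ _) hD
    have h4 := E_mono k hz
    have h5 : z.re - (A (k + 1) + A k) = z.re - (A k + A (k + 1)) := by ring
    rw [h5] at e
    linarith
  have hb : ∀ j, exp (E j z.re) ≤ exp U * ((1 / 4) * (1 / 2) ^ j)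
      + (if j = k then exp U else 0) + (if j = k + 1 then exp U else 0) := by
    intro j
    have hpos : 0 ≤ exp U * ((1 / 4) * (1 / 2) ^ j) := by positivity
    rcases lt_trichotomy j k with h | h | h
    · have hj : E j z.re ≤ U - ((j : ℝ) + 2) := by
        have := E_mono j hz
        have := E_earlier h (h1 j h)
        linarith
      have hne : j ≠ k := h.ne
      have hne' : j ≠ k + 1 := by omega
      simp only [hne, hne', if_false, add_zero]
      calc exp (E j z.re) ≤ exp (U + -((j : ℝ) + 2)) := by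
            apply Real.exp_le_exp.mpr; linarith
        _ = exp U * exp (-((j : ℝ) + 2)) := Real.exp_add _ _
        _ ≤ _ := mul_le_mul_of_nonneg_left (exp_neg_le j) (exp_pos _).le
    · subst h
      have hne' : j ≠ j + 1 := by omega
      simp only [if_true, hne', if_false, add_zero]
      have := Real.exp_le_exp.mpr hk
      linarith
    · rcases Nat.lt_or_ge (k + 1) j with h' | h'
      · have hj : E j z.re ≤ U - ((j : ℝ) + 2) := by
          have := E_later h' (show z.re ≤ A (k + 1) + A j - 1 from hz.trans (h2 j h'))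
          linarith
        have hne : j ≠ k := by omega
        have hne' : j ≠ k + 1 := by omega
        simp only [hne, hne', if_false, add_zero]
        calc exp (E j z.re) ≤ exp (U + -((j : ℝ) + 2)) := by
              apply Real.exp_le_exp.mpr; linarith
          _ = exp U * exp (-((j : ℝ) + 2)) := Real.exp_add _ _
          _ ≤ _ := mul_le_mul_of_nonneg_left (exp_neg_le j) (exp_pos _).le
      · have : j = k + 1 := by omega
        subst this
        have hne : k + 1 ≠ k := by omega
        simp only [if_true, hne, if_false, add_zero]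
        have := Real.exp_le_exp.mpr hk1
        linarith
  have hs1 : HasSum (fun j : ℕ => exp U * ((1 / 4 : ℝ) * (1 / 2) ^ j)) (exp U * (1 / 2)) := by
    have := summable_quarter.hasSum
    rw [tsum_quarter] at this
    exact this.mul_left _
  have hs2 : HasSum (fun j : ℕ => if j = k then exp U else 0) (exp U) := hasSum_ite_eq k (exp U)
  have hs3 : HasSum (fun j : ℕ => if j = k + 1 then exp U else 0) (exp U) :=
    hasSum_ite_eq (k + 1) (exp U)
  have hs := (hs1.add hs2).add hs3
  have h4 := (summable_expE z.re).tsum_le_tsum hb hs.summable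
  rw [hs.tsum_eq] at h4
  have h5 := norm_g_le z
  have h6 := exp_pos U
  linarith

end Pool.Agent.Helper552.Nev
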