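import Mathlib
import Pool.Agent.Helper552.NevA

set_option linter.unusedVariables false

open Filter Real MeasureTheory

namespace Pool.Agent.Helper552.Nev

/-- rotated copies -/
noncomputable def gr (φ : ℝ) (z : ℂ) : ℂ := g (Complex.exp (-(φ : ℂ) * Complex.I) * z)

lemma rot_circle (φ r θ : ℝ) :
    Complex.exp (-(φ : ℂ) * Complex.I) * circleMap 0 r θ = circleMap 0 r (θ - φ) := by
  simp only [circleMap, zero_add]
  rw [mul_left_comm, ← Complex.exp_add]
  congr 2
  push_cast
  ring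

lemma gr_circle (φ r θ : ℝ) : gr φ (circleMap 0 r θ) = g (circleMap 0 r (θ - φ)) := by
  unfold gr
  rw [rot_circle]

lemma circle_re (r θ : ℝ) : (circleMap 0 r θ).re = r * cos θ := by
  simp [circleMap, Complex.exp_re]

lemma differentiable_gr (φ : ℝ) : Differentiable ℂ (gr φ) := by
  unfold gr
  exact differentiable_g.comp (by fun_prop)

lemma gr_small {φ r θ : ℝ} (hr : 0 ≤ r) (h : cos (θ - φ) ≤ 0) :
    ‖gr φ (circleMap 0 r θ)‖ ≤ 1 := by
  rw [gr_circle]
  apply norm_g_le_one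
  rw [circle_re]
  exact mul_nonpos_of_nonneg_of_nonpos hr h

noncomputable def P (z : ℂ) : ℂ := gr (2 * π / 3) z + gr (4 * π / 3) z
noncomputable def Q (z : ℂ) : ℂ := gr 0 z + gr (2 * π / 3) z
noncomputable def R (z : ℂ) : ℂ := gr (4 * π / 3) z - gr 0 z
noncomputable def f (z : ℂ) : ℂ := P z / Q z

lemma dP : Differentiable ℂ P := (differentiable_gr _).add (differentiable_gr _)
lemma dQ : Differentiable ℂ Q := (differentiable_gr _).add (differentiable_gr _)
lemma dR : Differentiable ℂ R := (differentiable_gr _).sub (differentiable_gr _)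

lemma mero {N : ℂ → ℂ} (h : Differentiable ℂ N) : Meromorphic N :=
  fun z => (h.analyticAt z).meromorphicAt

lemma mf : Meromorphic f := (mero dP).div (mero dQ)

lemma cos_np {s : ℝ} (h1 : π / 2 ≤ s) (h2 : s ≤ π + π / 2) : cos s ≤ 0 :=
  Real.cos_nonpos_of_pi_div_two_le_of_le h1 h2

lemma cos_np' {s : ℝ} (h1 : π / 2 ≤ -s) (h2 : -s ≤ π + π / 2) : cos s ≤ 0 := by
  rw [← cos_neg]; exact cos_np h1 h2

/-- size of `g` at the point 100 -/
lemma norm_g_hundred : 2 ≤ ‖g (circleMap 0 100 0)‖ := by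
  have hre : (circleMap 0 100 0).re = 100 := by rw [circle_re]; simp
  have A0 : A 0 = 4 := by norm_num [A]
  have A1 : A 1 = 16 := by norm_num [A]
  have A2 : A 2 = 256 := by norm_num [A]
  have h := norm_g_ge (k := 1) (z := circleMap 0 100 0)
    (by
      intro j hj
      have : j = 0 := by omega
      subst this
      rw [hre, A0, A1]; norm_num)
    (by
      intro j hj
      have : A 2 ≤ A j := A_strictMono.monotone (by omega)
      rw [hre, A1]
      rw [A2] at this
      linarith)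
  rw [hre] at h
  have h2 : (4 : ℝ) ≤ exp (E 1 100) := by
    have h3 : E 1 100 = 1344 := by unfold E; rw [A1]; norm_num
    rw [h3]
    have := Real.add_one_le_exp (1344 : ℝ)
    linarith
  linarith

lemma P_ne : ∃ z, P z ≠ 0 := by
  refine ⟨circleMap 0 100 (2 * π / 3), ?_⟩
  have h1 : gr (2 * π / 3) (circleMap 0 100 (2 * π / 3)) = g (circleMap 0 100 0) := by
    rw [gr_circle, sub_self]
  have h2 : ‖gr (4 * π / 3) (circleMap 0 100 (2 * π / 3))‖ ≤ 1 := by
    apply gr_small (by norm_num)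
    apply cos_np' <;> linarith [Real.pi_pos]
  have h3 := norm_g_hundred
  intro h0
  unfold P at h0
  rw [h1] at h0
  have : g (circleMap 0 100 0) = - gr (4 * π / 3) (circleMap 0 100 (2 * π / 3)) :=
    eq_neg_of_add_eq_zero_left h0
  rw [this, norm_neg] at h3
  linarith

lemma Q_ne : ∃ z, Q z ≠ 0 := by
  refine ⟨circleMap 0 100 0, ?_⟩
  have h1 : gr 0 (circleMap 0 100 0) = g (circleMap 0 100 0) := by
    rw [gr_circle, sub_self]
  have h2 : ‖gr (2 * π / 3) (circleMap 0 100 0)‖ ≤ 1 := by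
    apply gr_small (by norm_num)
    apply cos_np' <;> linarith [Real.pi_pos]
  have h3 := norm_g_hundred
  intro h0
  unfold Q at h0
  rw [h1] at h0
  rw [eq_neg_of_add_eq_zero_left h0, norm_neg] at h3
  linarith

lemma R_ne : ∃ z, R z ≠ 0 := by
  refine ⟨circleMap 0 100 0, ?_⟩
  have h1 : gr 0 (circleMap 0 100 0) = g (circleMap 0 100 0) := by
    rw [gr_circle, sub_self]
  have h2 : ‖gr (4 * π / 3) (circleMap 0 100 0)‖ ≤ 1 := by
    apply gr_small (by norm_num)
    apply cos_np' <;> linarith [Real.pi_pos]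
  have h3 := norm_g_hundred
  intro h0
  unfold R at h0
  rw [h1] at h0
  rw [← sub_eq_zero.mp h0] at h3
  linarith

lemma ae_ne {N : ℂ → ℂ} (h : Differentiable ℂ N) (hne : ∃ z, N z ≠ 0) {r : ℝ} (hr : r ≠ 0) :
    ∀ᵐ θ : ℝ, N (circleMap 0 r θ) ≠ 0 := by
  obtain ⟨z, hz⟩ := hne
  have h1 : N ⁻¹' {0}ᶜ ∈ codiscrete ℂ :=
    AnalyticOnNhd.preimage_zero_mem_codiscrete (x := z)
      (fun w _ => h.analyticAt w) hz
  have h2 : N ⁻¹' {0}ᶜ ∈ codiscreteWithin (Metric.sphere (0 : ℂ) |r|) :=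
    codiscreteWithin_mono (Set.subset_univ _) h1
  have h3 := circleMap_preimage_codiscrete hr h2
  have h4 := ae_restrict_le_codiscreteWithin (μ := (volume : Measure ℝ)) (U := (Set.univ : Set ℝ))
    MeasurableSet.univ h3
  rw [Measure.restrict_univ] at h4
  filter_upwards [h4] with θ hθ
  exact hθ

/-- sector hypothesis -/
def Sec (F : ℂ → ℝ) (a : ℝ) : Prop :=
  (∀ z, 0 ≤ F z) ∧ (∀ r, CircleIntegrable F 0 r) ∧
    ∀ r : ℝ, 0 < r → ∀ᵐ t : ℝ, t ∈ Set.Icc (0 : ℝ) (1 / 2) → 2 ≤ ‖g (circleMap 0 r t)‖ →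
      log ‖g (circleMap 0 r t)‖ - log 4 ≤ F (circleMap 0 r (a + t))

lemma ae_shift {p : ℝ → Prop} (a : ℝ) (h : ∀ᵐ θ : ℝ, p θ) : ∀ᵐ t : ℝ, p (a + t) :=
  (measurePreserving_add_left volume a).quasiMeasurePreserving.ae h

/-- pointwise estimate -/
lemma pointwise {G u v : ℝ} (hG : 2 ≤ G) (hu : 0 < u) (hu2 : u ≤ 2) (hv : G - 1 ≤ v) :
    log G - log 4 ≤ log⁺ (v / u) := by
  rw [← Real.log_div (by linarith) (by norm_num)]
  refine le_trans ?_ (le_max_right 0 (log (v / u)))
  apply Real.log_le_log (by linarith)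
  rw [div_le_div_iff₀ (by norm_num) hu]
  nlinarith

lemma sec0 : Sec (fun z => log⁺ ‖f z‖⁻¹) 0 := by
  refine ⟨fun z => Real.posLog_nonneg, ?_, ?_⟩
  · intro r
    have := (mf.inv.meromorphicOn (s := Metric.sphere (0:ℂ) |r|)).circleIntegrable_posLog_norm
    simpa [norm_inv] using this
  · intro r hr
    filter_upwards [ae_shift 0 (ae_ne dP P_ne hr.ne')] with t ht ht2 hG
    have e1 : gr 0 (circleMap 0 r (0 + t)) = g (circleMap 0 r t) := by
      rw [gr_circle]; simp
    have s1 : ‖gr (2 * π / 3) (circleMap 0 r (0 + t))‖ ≤ 1 := by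
      apply gr_small hr.le
      apply cos_np' <;> linarith [Real.pi_gt_three, ht2.1, ht2.2]
    have s2 : ‖gr (4 * π / 3) (circleMap 0 r (0 + t))‖ ≤ 1 := by
      apply gr_small hr.le
      apply cos_np' <;> linarith [Real.pi_gt_three, ht2.1, ht2.2]
    have hP : ‖P (circleMap 0 r (0 + t))‖ ≤ 2 := by
      unfold P
      exact (norm_add_le _ _).trans (by linarith)
    have hQ : ‖g (circleMap 0 r t)‖ - 1 ≤ ‖Q (circleMap 0 r (0 + t))‖ := by
      unfold Q
      rw [e1]
      have := norm_sub_norm_le (g (circleMap 0 r t)) (-gr (2 * π / 3) (circleMap 0 r (0 + t)))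
      rw [norm_neg, sub_neg_eq_add] at this
      linarith
    have := pointwise hG (norm_pos_iff.mpr ht) hP hQ
    simp only [f]
    rw [norm_div, inv_div]
    exact this

lemma sec1 : Sec (fun z => log⁺ ‖f z - 1‖⁻¹) (2 * π / 3) := by
  refine ⟨fun z => Real.posLog_nonneg, ?_, ?_⟩
  · intro r
    have := ((mf.sub (Meromorphic.const 1)).inv.meromorphicOn
      (s := Metric.sphere (0:ℂ) |r|)).circleIntegrable_posLog_norm
    simpa [norm_inv] using this
  · intro r hr
    filter_upwards [ae_shift (2 * π / 3) (ae_ne dR R_ne hr.ne')] with t ht ht2 hG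
    have e1 : gr (2 * π / 3) (circleMap 0 r (2 * π / 3 + t)) = g (circleMap 0 r t) := by
      rw [gr_circle]; simp
    have s1 : ‖gr 0 (circleMap 0 r (2 * π / 3 + t))‖ ≤ 1 := by
      apply gr_small hr.le
      apply cos_np <;> linarith [Real.pi_gt_three, ht2.1, ht2.2]
    have s2 : ‖gr (4 * π / 3) (circleMap 0 r (2 * π / 3 + t))‖ ≤ 1 := by
      apply gr_small hr.le
      apply cos_np' <;> linarith [Real.pi_gt_three, ht2.1, ht2.2]
    have hR : ‖R (circleMap 0 r (2 * π / 3 + t))‖ ≤ 2 := by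
      unfold R
      exact (norm_sub_le _ _).trans (by linarith)
    have hQ : ‖g (circleMap 0 r t)‖ - 1 ≤ ‖Q (circleMap 0 r (2 * π / 3 + t))‖ := by
      unfold Q
      rw [e1]
      have := norm_sub_norm_le (g (circleMap 0 r t)) (-gr 0 (circleMap 0 r (2 * π / 3 + t)))
      rw [norm_neg, sub_neg_eq_add, add_comm (g _)] at this
      linarith
    have hQ0 : Q (circleMap 0 r (2 * π / 3 + t)) ≠ 0 := by
      rw [← norm_pos_iff]; linarith
    have hdiff : f (circleMap 0 r (2 * π / 3 + t)) - 1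
        = R (circleMap 0 r (2 * π / 3 + t)) / Q (circleMap 0 r (2 * π / 3 + t)) := by
      unfold f
      rw [div_sub_one hQ0]
      congr 1
      unfold P Q R
      ring
    have := pointwise hG (norm_pos_iff.mpr ht) hR hQ
    rw [hdiff, norm_div, inv_div]
    exact this

lemma sec2 : Sec (fun z => log⁺ ‖f z‖) (4 * π / 3) := by
  refine ⟨fun z => Real.posLog_nonneg, ?_, ?_⟩
  · intro r
    exact (mf.meromorphicOn (s := Metric.sphere (0:ℂ) |r|)).circleIntegrable_posLog_norm
  · intro r hr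
    filter_upwards [ae_shift (4 * π / 3) (ae_ne dQ Q_ne hr.ne')] with t ht ht2 hG
    have e1 : gr (4 * π / 3) (circleMap 0 r (4 * π / 3 + t)) = g (circleMap 0 r t) := by
      rw [gr_circle]; simp
    have s1 : ‖gr 0 (circleMap 0 r (4 * π / 3 + t))‖ ≤ 1 := by
      apply gr_small hr.le
      apply cos_np <;> linarith [Real.pi_gt_three, ht2.1, ht2.2]
    have s2 : ‖gr (2 * π / 3) (circleMap 0 r (4 * π / 3 + t))‖ ≤ 1 := by
      apply gr_small hr.le
      apply cos_np <;> linarith [Real.pi_gt_three, ht2.1, ht2.2]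
    have hQ : ‖Q (circleMap 0 r (4 * π / 3 + t))‖ ≤ 2 := by
      unfold Q
      exact (norm_add_le _ _).trans (by linarith)
    have hP : ‖g (circleMap 0 r t)‖ - 1 ≤ ‖P (circleMap 0 r (4 * π / 3 + t))‖ := by
      unfold P
      rw [e1]
      have := norm_sub_norm_le (g (circleMap 0 r t))
        (-gr (2 * π / 3) (circleMap 0 r (4 * π / 3 + t)))
      rw [norm_neg, sub_neg_eq_add, add_comm (g _)] at this
      linarith
    have := pointwise hG (norm_pos_iff.mpr ht) hQ hP
    simp only [f]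
    rw [norm_div]
    exact this

end Pool.Agent.Helper552.Nev
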