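import Mathlib
import Pool.Agent.Helper552.NevB

set_option linter.unusedVariables false

open Filter Real MeasureTheory

namespace Pool.Agent.Helper552.Nev

lemma int_lower {F : ℂ → ℝ} {a r : ℝ} (hS : Sec F a) (ha : 0 ≤ a) (ha2 : a + 1 / 2 ≤ 2 * π)
    (hr : 0 < r) {h : ℝ → ℝ} (hh : Continuous h) {s₁ s₂ : ℝ} (h0 : 0 ≤ s₁) (h12 : s₁ ≤ s₂)
    (h2 : s₂ ≤ 1 / 2)
    (hb : ∀ t ∈ Set.Icc s₁ s₂, h t ≤ 0 ∨
      (2 ≤ ‖g (circleMap 0 r t)‖ ∧ h t ≤ log ‖g (circleMap 0 r t)‖ - log 4)) :
    ∫ t in s₁..s₂, h t ≤ 2 * π * circleAverage F 0 r := by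
  obtain ⟨hF0, hFi, hFb⟩ := hS
  have hint : IntervalIntegrable (fun θ => F (circleMap 0 r θ)) volume 0 (2 * π) := hFi r
  have e0 : 2 * π * circleAverage F 0 r = ∫ θ in (0:ℝ)..2 * π, F (circleMap 0 r θ) := by
    unfold circleAverage
    rw [smul_eq_mul, ← mul_assoc, mul_inv_cancel₀ (by positivity), one_mul]
  have hint2 : IntervalIntegrable (fun θ => F (circleMap 0 r θ)) volume (a + s₁) (a + s₂) := by
    apply hint.mono_set
    rw [Set.uIcc_of_le (by linarith), Set.uIcc_of_le (by positivity)]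
    apply Set.Icc_subset_Icc <;> linarith
  have hint3 : IntervalIntegrable (fun t => F (circleMap 0 r (a + t))) volume s₁ s₂ := by
    have := hint2.comp_add_left a
    simpa using this
  rw [e0]
  calc ∫ t in s₁..s₂, h t ≤ ∫ t in s₁..s₂, F (circleMap 0 r (a + t)) := by
        apply intervalIntegral.integral_mono_ae_restrict h12 (hh.intervalIntegrable _ _) hint3
        have h3 := hFb r hr
        have h4 := ae_restrict_of_ae (s := Set.Icc s₁ s₂) h3
        filter_upwards [h4, ae_restrict_mem measurableSet_Icc] with t ht htm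
        rcases hb t htm with h5 | ⟨h5, h6⟩
        · exact h5.trans (hF0 _)
        · exact h6.trans (ht ⟨by linarith [htm.1], by linarith [htm.2]⟩ h5)
    _ = ∫ θ in (a + s₁)..(a + s₂), F (circleMap 0 r θ) :=
        intervalIntegral.integral_comp_add_left (fun θ => F (circleMap 0 r θ)) a
    _ ≤ ∫ θ in (0:ℝ)..2 * π, F (circleMap 0 r θ) := by
        apply intervalIntegral.integral_mono_interval (by linarith) (by linarith) (by linarith) _ hint
        filter_upwards with θ
        exact hF0 _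

/-- scale hypothesis -/
def Sc (m : ℕ) (r : ℝ) : Prop :=
  2 * (A m + A (m + 1)) ≤ r ∧ r ≤ 2 * (A (m + 1) + A (m + 2))

lemma Sc.facts {m : ℕ} {r : ℝ} (h : Sc m r) : 40 ≤ r ∧ 16 ≤ A (m + 1) ∧ 2 * A (m + 1) + 8 ≤ r ∧
    256 ≤ A (m + 2) ∧ 4 ≤ A m := by
  have h1 := A_ge4 m
  have h2 : 16 ≤ A (m + 1) := by rw [A_succ]; nlinarith
  have h3 : 256 ≤ A (m + 2) := by rw [show m + 2 = (m + 1) + 1 from rfl, A_succ]; nlinarith
  have h4 := h.1
  refine ⟨by linarith, h2, by linarith, h3, h1⟩

lemma Sc.low {m : ℕ} {r x : ℝ} (h : Sc m r) (hx : 7 / 8 * r ≤ x) :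
    ∀ j < m + 1, A (m + 1) + A j + 1 ≤ x := by
  intro j hj
  have h1 : A j ≤ A m := A_strictMono.monotone (by omega)
  have h2 := h.1
  have h3 := h.facts.1
  linarith

lemma Sc.high {m : ℕ} {r x : ℝ} (h : Sc m r) (hx : x ≤ r) :
    ∀ j, m + 2 < j → x ≤ A (m + 2) + A j - 1 := by
  intro j hj
  have h1 : A (m + 3) ≤ A j := A_strictMono.monotone (by omega)
  have h2 := h.2
  have h3 := h.facts
  have h4 : A (m + 3) = A (m + 2) ^ 2 := A_succ _
  have h5 : A (m + 1) ≤ A (m + 2) := A_strictMono.monotone (by omega)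
  nlinarith

lemma log8_le : log 8 ≤ 3 := by
  have : (8:ℝ) = 2 ^ 3 := by norm_num
  rw [this, Real.log_pow]
  have := Real.log_two_lt_d9
  push_cast
  linarith

lemma log8_pos : 0 < log 8 := Real.log_pos (by norm_num)

lemma log4_lt : log 4 ≤ 2 := by
  have : (4:ℝ) = 2 ^ 2 := by norm_num
  rw [this, Real.log_pow]
  have := Real.log_two_lt_d9
  push_cast
  linarith

lemma good_k {k : ℕ} {r t : ℝ} (h1 : ∀ j < k, A k + A j + 1 ≤ r * cos t)
    (h2 : ∀ j, k < j → r * cos t ≤ A k + A j - 1) {c : ℝ} (hc : c ≤ E k (r * cos t) - 3) :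
    c ≤ 0 ∨ (2 ≤ ‖g (circleMap 0 r t)‖ ∧ c ≤ log ‖g (circleMap 0 r t)‖ - log 4) := by
  by_cases h0 : c ≤ 0
  · exact Or.inl h0
  · right
    have hre : (circleMap 0 r t).re = r * cos t := circle_re r t
    have hg := norm_g_ge (k := k) (z := circleMap 0 r t) (by rw [hre]; exact h1)
      (by rw [hre]; exact h2)
    rw [hre] at hg
    have h3 : 3 ≤ E k (r * cos t) := by push Not at h0; linarith
    have h4 : (4 : ℝ) ≤ exp (E k (r * cos t)) := by
      have := Real.add_one_le_exp (E k (r * cos t))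
      linarith
    refine ⟨by linarith, ?_⟩
    have h5 : log ((1 / 2) * exp (E k (r * cos t))) ≤ log ‖g (circleMap 0 r t)‖ :=
      Real.log_le_log (by positivity) hg
    rw [Real.log_mul (by norm_num) (exp_pos _).ne', Real.log_exp] at h5
    have h6 : log (1 / 2 : ℝ) = - log 2 := by rw [one_div, Real.log_inv]
    have h7 := Real.log_two_lt_d9
    have h8 : log (4:ℝ) = 2 * log 2 := by
      rw [show (4:ℝ) = 2 ^ 2 by norm_num, Real.log_pow]; norm_num
    rw [h6] at h5
    rw [h8]
    linarith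

lemma cos_ge_78 {t : ℝ} (h0 : 0 ≤ t) (h1 : t ≤ 1 / 2) : 7 / 8 ≤ cos t := by
  have := Real.one_sub_sq_div_two_le_cos (x := t)
  nlinarith

lemma cos_quarter {t : ℝ} (h0 : 1 / 4 ≤ t) (h1 : t ≤ 1 / 2) : cos t ≤ 0.969 := by
  have h2 : cos t ≤ cos (1 / 4) := by
    apply Real.cos_le_cos_of_nonneg_of_le_pi (by norm_num) _ h0
    linarith [Real.pi_gt_three]
  have h3 := Real.cos_bound (x := 1 / 4) (by norm_num [abs_of_pos])
  rw [abs_le] at h3
  have h4 := h3.2
  rw [abs_of_pos (by norm_num : (0:ℝ) < 1 / 4)] at h4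
  norm_num at h4 ⊢
  linarith

lemma cos_eighth {t : ℝ} (h0 : 0 ≤ t) (h1 : t ≤ 1 / 8) : 127 / 128 ≤ cos t := by
  have := Real.one_sub_sq_div_two_le_cos (x := t)
  nlinarith

/-- first lower bound -/
lemma L1 {F : ℂ → ℝ} {a r : ℝ} {m : ℕ} (hS : Sec F a) (ha : 0 ≤ a) (ha2 : a + 1 / 2 ≤ 2 * π)
    (hm : Sc m r) : 3 / 64 * (A (m + 1) * r) - 3 / 8 ≤ 2 * π * circleAverage F 0 r := by
  obtain ⟨f1, f2, f3, f4, f5⟩ := hm.facts
  have hr : 0 < r := by linarith
  set c : ℝ := 3 / 8 * (A (m + 1) * r) - 3 with hc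
  have hcpos : 0 ≤ c := by
    have : 16 * 40 ≤ A (m + 1) * r := by nlinarith
    rw [hc]; linarith
  -- the pointwise bound
  have key : ∀ x, 7 / 8 * r ≤ x → c ≤ E (m + 1) x - 3 := by
    intro x hx
    have h1 := E_mono (m + 1) hx
    have h2 : 3 / 8 * (A (m + 1) * r) ≤ E (m + 1) (7 / 8 * r) := by
      unfold E
      nlinarith
    linarith
  by_cases hcase : 0.969 * r ≤ A (m + 1) + A (m + 2) - 1
  · have := int_lower hS ha ha2 hr (h := fun _ => c) continuous_const (s₁ := 1 / 4) (s₂ := 1 / 2)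
      (by norm_num) (by norm_num) (by norm_num) ?_
    · rw [intervalIntegral.integral_const, smul_eq_mul] at this
      norm_num at this
      linarith
    · intro t ht
      have c1 := cos_ge_78 (by linarith [ht.1]) ht.2
      have c2 := cos_quarter ht.1 ht.2
      have x1 : 7 / 8 * r ≤ r * cos t := by nlinarith
      have x2 : r * cos t ≤ 0.969 * r := by nlinarith
      apply good_k (k := m + 1)
      · intro j hj; exact hm.low x1 j hj
      · intro j hj
        have : A (m + 2) ≤ A j := A_strictMono.monotone (by omega)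
        linarith
      · exact key _ x1
  · have := int_lower hS ha ha2 hr (h := fun _ => c) continuous_const (s₁ := 0) (s₂ := 1 / 8)
      (by norm_num) (by norm_num) (by norm_num) ?_
    · rw [intervalIntegral.integral_const, smul_eq_mul] at this
      norm_num at this
      linarith
    · intro t ht
      have c1 := cos_eighth ht.1 ht.2
      have c2 := Real.cos_le_one t
      have x1 : 127 / 128 * r ≤ r * cos t := by nlinarith
      have x2 : r * cos t ≤ r := by nlinarith
      have x3 : A (m + 1) + A (m + 2) + 1 ≤ r * cos t := by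
        push Not at hcase
        norm_num at hcase
        nlinarith
      apply good_k (k := m + 2)
      · intro j hj
        have : A j ≤ A (m + 1) := A_strictMono.monotone (by omega)
        linarith
      · intro j hj
        exact hm.high x2 j hj
      · have h1 := key (r * cos t) (by nlinarith)
        have h2 := E_diff (m + 1) (m + 2) (r * cos t)
        have h3 : 0 ≤ (A (m + 2) - A (m + 1)) * (r * cos t - (A (m + 2) + A (m + 1))) := by
          apply mul_nonneg
          · have : A (m + 1) ≤ A (m + 2) := A_strictMono.monotone (by omega)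
            linarith
          · linarith
        linarith

/-- the jump integral -/
noncomputable def J (m : ℕ) (r : ℝ) : ℝ :=
  ∫ t in (0:ℝ)..(1 / 2), (A (m + 2) - A (m + 1)) * max (r * cos t - (A (m + 1) + A (m + 2))) 0

lemma D_nonneg (m : ℕ) : 0 ≤ A (m + 2) - A (m + 1) := by
  have : A (m + 1) ≤ A (m + 2) := A_strictMono.monotone (by omega)
  linarith

lemma J_nonneg (m : ℕ) (r : ℝ) : 0 ≤ J m r := by
  unfold J
  apply intervalIntegral.integral_nonneg (by norm_num)
  intro t ht
  exact mul_nonneg (D_nonneg m) (le_max_right _ _)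

lemma J_zero {m : ℕ} {r : ℝ} (hr : 0 ≤ r) (h : r ≤ A (m + 1) + A (m + 2)) : J m r = 0 := by
  unfold J
  have : ∀ t : ℝ, (A (m + 2) - A (m + 1)) * max (r * cos t - (A (m + 1) + A (m + 2))) 0 = 0 := by
    intro t
    have : r * cos t ≤ r := by
      have := Real.cos_le_one t
      nlinarith
    rw [max_eq_right (by linarith), mul_zero]
  simp only [this]
  simp

/-- second lower bound -/
lemma L2 {F : ℂ → ℝ} {a r : ℝ} {m : ℕ} (hS : Sec F a) (ha : 0 ≤ a) (ha2 : a + 1 / 2 ≤ 2 * π)
    (hm : Sc m r) :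
    J m r - (A (m + 2) - A (m + 1) + 3) / 2 ≤ 2 * π * circleAverage F 0 r := by
  obtain ⟨f1, f2, f3, f4, f5⟩ := hm.facts
  have hr : 0 < r := by linarith
  have hcont : Continuous (fun t : ℝ => (A (m + 2) - A (m + 1)) *
      max (r * cos t - (A (m + 1) + A (m + 2))) 0) := by fun_prop
  have := int_lower hS ha ha2 hr (h := fun t => (A (m + 2) - A (m + 1)) *
      max (r * cos t - (A (m + 1) + A (m + 2))) 0 - (A (m + 2) - A (m + 1) + 3))
    (hcont.sub continuous_const) (s₁ := 0) (s₂ := 1 / 2) le_rfl (by norm_num) le_rfl ?_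
  · rw [intervalIntegral.integral_sub (hcont.intervalIntegrable _ _)
      (continuous_const.intervalIntegrable _ _), intervalIntegral.integral_const, smul_eq_mul] at this
    unfold J
    linarith
  · intro t ht
    have c2 := Real.cos_le_one t
    have x2 : r * cos t ≤ r := by nlinarith
    by_cases hx : A (m + 1) + A (m + 2) + 1 ≤ r * cos t
    · apply good_k (k := m + 2)
      · intro j hj
        have : A j ≤ A (m + 1) := A_strictMono.monotone (by omega)
        linarith
      · intro j hj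
        exact hm.high x2 j hj
      · rw [max_eq_left (by linarith)]
        have h2 := E_diff (m + 1) (m + 2) (r * cos t)
        have h3 : 0 ≤ E (m + 1) (r * cos t) := by
          unfold E
          nlinarith
        have h4 := D_nonneg m
        have h5 : (A (m + 2) - A (m + 1)) * (r * cos t - (A (m + 2) + A (m + 1)))
          = (A (m + 2) - A (m + 1)) * (r * cos t - (A (m + 1) + A (m + 2))) := by ring
        linarith
    · left
      push Not at hx
      have h4 := D_nonneg m
      have h5 : max (r * cos t - (A (m + 1) + A (m + 2))) 0 ≤ 1 := by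
        apply max_le <;> linarith
      have := mul_le_mul_of_nonneg_left h5 h4
      linarith

/-- combined lower bound -/
lemma lower {F : ℂ → ℝ} {a r : ℝ} {m : ℕ} (hS : Sec F a) (ha : 0 ≤ a) (ha2 : a + 1 / 2 ≤ 2 * π)
    (hm : Sc m r) :
    1 / 128 * (A (m + 1) * r) + 1 / 2 * J m r - 1 ≤ 2 * π * circleAverage F 0 r := by
  have h1 := L1 hS ha ha2 hm
  obtain ⟨f1, f2, f3, f4, f5⟩ := hm.facts
  by_cases hr : r ≤ A (m + 1) + A (m + 2)
  · rw [J_zero (by linarith) hr]
    nlinarith
  · have h2 := L2 hS ha ha2 hm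
    push Not at hr
    have h3 : A (m + 2) - A (m + 1) ≤ r := by linarith
    have h4 : 16 * r ≤ A (m + 1) * r := by nlinarith
    linarith

end Pool.Agent.Helper552.Nev
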