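import Mathlib
import Pool.Agent.Helper552.NevC

set_option linter.unusedVariables false

open Filter Real MeasureTheory ValueDistribution

namespace Pool.Agent.Helper552.Nev

lemma order_ne_top {N : ℂ → ℂ} (h : Differentiable ℂ N) (hne : ∃ z, N z ≠ 0) :
    ∀ z, meromorphicOrderAt N z ≠ ⊤ := by
  obtain ⟨z, hz⟩ := hne
  have hm := mero h
  have key := hm.exists_meromorphicOrderAt_ne_top_iff_forall
  apply key.mp
  refine ⟨z, ?_⟩
  rw [meromorphicOrderAt_ne_top_iff_eventually_ne_zero (hm z)]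
  exact ((h.continuous.continuousAt (x := z)).eventually_ne hz).filter_mono nhdsWithin_le_nhds

lemma logCounting_entire {N : ℂ → ℂ} (h : Differentiable ℂ N) : logCounting N ⊤ = 0 := by
  rw [logCounting_top]
  have h1 : 0 ≤ MeromorphicOn.divisor N Set.univ :=
    MeromorphicOn.AnalyticOnNhd.divisor_nonneg (fun w _ => h.analyticAt w)
  have h2 : (MeromorphicOn.divisor N Set.univ)⁻ = 0 := negPart_eq_zero.mpr h1
  rw [h2]
  simp

/-- scaling comparison for the full circle -/
lemma circle_int_le {h : ℝ → ℝ} (hh : Continuous h) (hm : Monotone h) (h0 : ∀ x, 0 ≤ h x)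
    (φ : ℝ) :
    ∫ θ in (0:ℝ)..2 * π, h (cos (θ - φ)) ≤ 4 * π * ∫ t in (0:ℝ)..(1 / 2), h (cos t) := by
  have hper : Function.Periodic (fun θ : ℝ => h (cos θ)) (2 * π) := by
    intro θ
    simp only [Real.cos_add_two_pi]
  have hc : Continuous (fun θ : ℝ => h (cos θ)) := hh.comp Real.continuous_cos
  have e1 : ∫ θ in (0:ℝ)..2 * π, h (cos (θ - φ)) = ∫ θ in (0:ℝ)..2 * π, h (cos θ) := by
    rw [intervalIntegral.integral_comp_sub_right (fun θ => h (cos θ)) φ]
    have := hper.intervalIntegral_add_eq (0 - φ) 0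
    simpa [sub_eq_add_neg, add_comm] using this
  have e2 : ∫ θ in (0:ℝ)..2 * π, h (cos θ)
      = (∫ θ in (0:ℝ)..π, h (cos θ)) + ∫ θ in π..2 * π, h (cos θ) :=
    (intervalIntegral.integral_add_adjacent_intervals (hc.intervalIntegrable _ _)
      (hc.intervalIntegrable _ _)).symm
  have e3 : ∫ θ in π..2 * π, h (cos θ) = ∫ θ in (0:ℝ)..π, h (cos θ) := by
    have := intervalIntegral.integral_comp_sub_left (fun θ => h (cos θ)) (2 * π) (a := 0) (b := π)
    simp only [Real.cos_two_pi_sub, sub_zero] at this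
    rw [this]
    congr 1
    ring
  have e4 : ∫ θ in (0:ℝ)..π, h (cos θ) = 2 * π * ∫ t in (0:ℝ)..(1 / 2), h (cos (2 * π * t)) := by
    have := intervalIntegral.integral_comp_mul_left (fun θ => h (cos θ))
      (c := 2 * π) (by positivity) (a := 0) (b := 1 / 2)
    rw [this, smul_eq_mul, ← mul_assoc, mul_inv_cancel₀ (by positivity), one_mul]
    congr 1
    · ring
    · ring
  have e5 : ∫ t in (0:ℝ)..(1 / 2), h (cos (2 * π * t)) ≤ ∫ t in (0:ℝ)..(1 / 2), h (cos t) := by
    apply intervalIntegral.integral_mono_on (by norm_num)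
    · exact (hh.comp (Real.continuous_cos.comp (by fun_prop))).intervalIntegrable _ _
    · exact hc.intervalIntegrable _ _
    · intro t ht
      apply hm
      apply Real.cos_le_cos_of_nonneg_of_le_pi ht.1
      · nlinarith [ht.2, Real.pi_pos]
      · nlinarith [ht.1, Real.pi_gt_three]
  have h1 : ∫ θ in (0:ℝ)..π, h (cos θ) ≤ 2 * π * ∫ t in (0:ℝ)..(1 / 2), h (cos t) := by
    rw [e4]
    exact mul_le_mul_of_nonneg_left e5 (by positivity)
  rw [e1, e2, e3]
  linarith

/-- the upper majorant -/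
noncomputable def hM (m : ℕ) (r : ℝ) (c : ℝ) : ℝ :=
  (A (m + 2) - A (m + 1)) * max (r * c - (A (m + 1) + A (m + 2))) 0

lemma hM_cont (m : ℕ) (r : ℝ) : Continuous (hM m r) := by
  unfold hM; fun_prop

lemma hM_nonneg (m : ℕ) (r c : ℝ) : 0 ≤ hM m r c :=
  mul_nonneg (D_nonneg m) (le_max_right _ _)

lemma hM_mono (m : ℕ) {r : ℝ} (hr : 0 ≤ r) : Monotone (hM m r) := by
  intro x y hxy
  unfold hM
  apply mul_le_mul_of_nonneg_left _ (D_nonneg m)
  apply max_le_max _ le_rfl
  nlinarith

lemma gr_upper {m : ℕ} {r : ℝ} (hm : Sc m r) (φ θ : ℝ) :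
    ‖gr φ (circleMap 0 r θ)‖ ≤ 3 * exp (E (m + 1) r + hM m r (cos (θ - φ))) := by
  obtain ⟨f1, f2, f3, f4, f5⟩ := hm.facts
  rw [gr_circle]
  have hre := circle_re r (θ - φ)
  have h1 := norm_g_upper (k := m + 1) (r := r)
    (fun j hj => hm.low (by linarith) j hj) (fun j hj => hm.high le_rfl j hj)
    (z := circleMap 0 r (θ - φ)) (by
      rw [hre]
      have := Real.cos_le_one (θ - φ)
      nlinarith)
  rw [hre] at h1
  exact h1

lemma log6_le : log 6 ≤ 2 := by
  have h1 : log (6:ℝ) ≤ log 8 - log (4 / 3) := by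
    rw [← Real.log_div (by norm_num) (by norm_num)]
    apply Real.log_le_log (by norm_num) (by norm_num)
  have h2 : log (8:ℝ) = 3 * log 2 := by
    rw [show (8:ℝ) = 2 ^ 3 by norm_num, Real.log_pow]; norm_num
  have h3 := Real.log_two_lt_d9
  have h4 : (1:ℝ) - (4 / 3)⁻¹ ≤ log (4 / 3) := Real.one_sub_inv_le_log_of_pos (by norm_num)
  norm_num at h4
  linarith

/-- characteristic of a sum of two rotated copies -/
lemma char_sum_le {m : ℕ} {r : ℝ} (hm : Sc m r) (φ ψ : ℝ) :
    characteristic (fun z => gr φ z + gr ψ z) ⊤ r ≤ 2 * (A (m + 1) * r) + 4 * J m r + 2 := by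
  obtain ⟨f1, f2, f3, f4, f5⟩ := hm.facts
  have hd : Differentiable ℂ (fun z => gr φ z + gr ψ z) :=
    (differentiable_gr _).add (differentiable_gr _)
  have e0 : characteristic (fun z => gr φ z + gr ψ z) ⊤ r
      = circleAverage (fun z => log⁺ ‖gr φ z + gr ψ z‖) 0 r := by
    unfold characteristic
    rw [logCounting_entire hd, add_zero, proximity_top]
  have hE : 0 ≤ E (m + 1) r := by
    unfold E
    nlinarith
  have hE2 : E (m + 1) r ≤ A (m + 1) * r := by
    unfold E
    nlinarith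
  have e1 : circleAverage (fun z => log⁺ ‖gr φ z + gr ψ z‖) 0 r
      = (2 * π)⁻¹ * ∫ θ in (0:ℝ)..2 * π, log⁺ ‖gr φ (circleMap 0 r θ) + gr ψ (circleMap 0 r θ)‖ := by
    unfold circleAverage
    rw [smul_eq_mul]
  have hint : IntervalIntegrable
      (fun θ => log⁺ ‖gr φ (circleMap 0 r θ) + gr ψ (circleMap 0 r θ)‖) volume 0 (2 * π) :=
    ((mero hd).meromorphicOn (s := Metric.sphere (0:ℂ) |r|)).circleIntegrable_posLog_norm
  have hc1 : Continuous (fun θ : ℝ => hM m r (cos (θ - φ))) :=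
    (hM_cont m r).comp (Real.continuous_cos.comp (by fun_prop))
  have hc2 : Continuous (fun θ : ℝ => hM m r (cos (θ - ψ))) :=
    (hM_cont m r).comp (Real.continuous_cos.comp (by fun_prop))
  have h1 : ∫ θ in (0:ℝ)..2 * π, log⁺ ‖gr φ (circleMap 0 r θ) + gr ψ (circleMap 0 r θ)‖
      ≤ ∫ θ in (0:ℝ)..2 * π, ((2 + 2 * E (m + 1) r) + (hM m r (cos (θ - φ))
        + hM m r (cos (θ - ψ)))) := by
    apply intervalIntegral.integral_mono_on (by positivity) hint
    · exact (continuous_const.add (hc1.add hc2)).intervalIntegrable _ _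
    · intro θ _
      have g1 := gr_upper hm φ θ
      have g2 := gr_upper hm ψ θ
      have p1 := hM_nonneg m r (cos (θ - φ))
      have p2 := hM_nonneg m r (cos (θ - ψ))
      set u := hM m r (cos (θ - φ))
      set v := hM m r (cos (θ - ψ))
      have g3 : ‖gr φ (circleMap 0 r θ) + gr ψ (circleMap 0 r θ)‖
          ≤ 6 * exp (2 * E (m + 1) r + (u + v)) := by
        have h2 : exp (E (m + 1) r + u) ≤ exp (2 * E (m + 1) r + (u + v)) :=
          Real.exp_le_exp.mpr (by linarith)
        have h3 : exp (E (m + 1) r + v) ≤ exp (2 * E (m + 1) r + (u + v)) :=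
          Real.exp_le_exp.mpr (by linarith)
        exact (norm_add_le _ _).trans (by linarith)
      rw [Real.posLog_apply]
      apply max_le (by linarith)
      by_cases h0 : ‖gr φ (circleMap 0 r θ) + gr ψ (circleMap 0 r θ)‖ = 0
      · rw [h0, Real.log_zero]; linarith
      · have h4 := Real.log_le_log (lt_of_le_of_ne (norm_nonneg _) (Ne.symm h0)) g3
        rw [Real.log_mul (by norm_num) (exp_pos _).ne', Real.log_exp] at h4
        have := log6_le
        linarith
  have hc12 : Continuous (fun θ : ℝ => hM m r (cos (θ - φ)) + hM m r (cos (θ - ψ))) :=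
    hc1.add hc2
  rw [intervalIntegral.integral_add (continuous_const.intervalIntegrable _ _)
    (hc12.intervalIntegrable _ _), intervalIntegral.integral_const, smul_eq_mul,
    intervalIntegral.integral_add (hc1.intervalIntegrable _ _) (hc2.intervalIntegrable _ _)] at h1
  have h2 := circle_int_le (hM_cont m r) (hM_mono m (by linarith)) (hM_nonneg m r) φ
  have h3 := circle_int_le (hM_cont m r) (hM_mono m (by linarith)) (hM_nonneg m r) ψ
  have hJ : ∫ t in (0:ℝ)..(1 / 2), hM m r (cos t) = J m r := rfl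
  rw [hJ] at h2 h3
  have h4 : ∫ θ in (0:ℝ)..2 * π, log⁺ ‖gr φ (circleMap 0 r θ) + gr ψ (circleMap 0 r θ)‖
      ≤ (2 * π) * (2 + 2 * E (m + 1) r + 4 * J m r) := by
    nlinarith
  rw [e0, e1]
  calc (2 * π)⁻¹ * ∫ θ in (0:ℝ)..2 * π, log⁺ ‖gr φ (circleMap 0 r θ) + gr ψ (circleMap 0 r θ)‖
      ≤ (2 * π)⁻¹ * ((2 * π) * (2 + 2 * E (m + 1) r + 4 * J m r)) :=
        mul_le_mul_of_nonneg_left h4 (by positivity)
    _ = 2 + 2 * E (m + 1) r + 4 * J m r := by
        rw [← mul_assoc, inv_mul_cancel₀ (by positivity), one_mul]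
    _ ≤ _ := by linarith

/-- upper bound for the characteristic of `f` -/
lemma upper : ∃ C : ℝ, ∀ m r, Sc m r →
    characteristic f ⊤ r ≤ 4 * (A (m + 1) * r) + 8 * J m r + C := by
  refine ⟨4 + max |log ‖Q 0‖| |log ‖meromorphicTrailingCoeffAt Q 0‖|, ?_⟩
  intro m r hm
  obtain ⟨f1, f2, f3, f4, f5⟩ := hm.facts
  have hf : f = P * Q⁻¹ := by
    funext z
    simp [f, div_eq_mul_inv]
  have h1 := characteristic_mul_top_le (r := r) (by linarith) (mero dP) (order_ne_top dP P_ne)
    (mero dQ).inv (by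
      intro z
      rw [meromorphicOrderAt_inv]
      have := order_ne_top dQ Q_ne z
      intro h
      apply this
      exact (LinearOrderedAddCommGroupWithTop.neg_eq_top).mp h)
  rw [← hf] at h1
  have h2 := characteristic_sub_characteristic_inv_le (R := r) (mero dQ)
  rw [abs_le] at h2
  have h3 := char_sum_le hm (2 * π / 3) (4 * π / 3)
  have h4 := char_sum_le hm 0 (2 * π / 3)
  have e3 : (fun z => gr (2 * π / 3) z + gr (4 * π / 3) z) = P := rfl
  have e4 : (fun z => gr 0 z + gr (2 * π / 3) z) = Q := rfl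
  rw [e3] at h3
  rw [e4] at h4
  simp only [Pi.add_apply] at h1
  linarith [h2.1]

end Pool.Agent.Helper552.Nev
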