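import Mathlib
import Pool.Agent.Helper552.NevD

set_option linter.unusedVariables false

open Filter Real MeasureTheory ValueDistribution

namespace Pool.Agent.Helper552.Nev

lemma A_tendsto : Tendsto A atTop atTop := by
  refine tendsto_atTop_mono A_ge ?_
  exact tendsto_atTop_add_const_right _ _ tendsto_natCast_atTop_atTop

lemma exists_scale {r : ℝ} (hr : 40 ≤ r) : ∃ m, Sc m r := by
  classical
  have hex : ∃ m, r ≤ 2 * (A (m + 1) + A (m + 2)) := by
    obtain ⟨m, hm⟩ := (A_tendsto.eventually_ge_atTop r).exists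
    refine ⟨m, ?_⟩
    have h1 : A m ≤ A (m + 1) := A_strictMono.monotone (by omega)
    have h2 := A_pos (m + 2)
    have h3 := A_pos (m + 1)
    linarith
  refine ⟨Nat.find hex, ?_, Nat.find_spec hex⟩
  by_cases h0 : Nat.find hex = 0
  · rw [h0]
    have A0 : A 0 = 4 := by norm_num [A]
    have A1 : A 1 = 16 := by norm_num [A]
    simp only [zero_add]
    rw [A0, A1]; linarith
  · obtain ⟨n, hn⟩ := Nat.exists_eq_succ_of_ne_zero h0
    have h1 : n < Nat.find hex := by omega
    have h2 := Nat.find_min hex h1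
    push Not at h2
    rw [hn]
    exact h2.le

/-- deficiency -/
lemma deficient {F : ℂ → ℝ} {a : ℝ} (hS : Sec F a) (ha : 0 ≤ a) (ha2 : a + 1 / 2 ≤ 2 * π) :
    ∃ ε : ℝ, 0 < ε ∧ ∀ᶠ r in atTop, ε * characteristic f ⊤ r ≤ circleAverage F 0 r := by
  obtain ⟨C, hC⟩ := upper
  refine ⟨1 / 10000, by norm_num, ?_⟩
  filter_upwards [eventually_ge_atTop (40 : ℝ), eventually_ge_atTop (|C| + 1000)] with r hr1 hr2
  obtain ⟨m, hm⟩ := exists_scale hr1
  obtain ⟨f1, f2, f3, f4, f5⟩ := hm.facts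
  have h1 := hC m r hm
  have h2 := lower hS ha ha2 hm
  have h3 := J_nonneg m r
  have h4 : 16 * r ≤ A (m + 1) * r := by nlinarith
  have h5 := le_abs_self C
  have h7 : π ≤ 3.15 := Real.pi_lt_d2.le
  have h8 : 0 ≤ circleAverage F 0 r := by
    have : 0 ≤ 2 * π * circleAverage F 0 r := by
      have := abs_nonneg C
      linarith
    have h9 := Real.pi_pos
    by_contra hneg
    push Not at hneg
    nlinarith
  have h9 : 2 * π * circleAverage F 0 r ≤ 7 * circleAverage F 0 r := by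
    apply mul_le_mul_of_nonneg_right _ h8
    linarith
  have := abs_nonneg C
  linarith

lemma J_le {m : ℕ} {r : ℝ} (hm : Sc m r) : J m r ≤ r ^ 2 := by
  obtain ⟨f1, f2, f3, f4, f5⟩ := hm.facts
  by_cases hr : r ≤ A (m + 1) + A (m + 2)
  · rw [J_zero (by linarith) hr]; positivity
  · push Not at hr
    have hcont : Continuous (fun t : ℝ => (A (m + 2) - A (m + 1)) *
      max (r * cos t - (A (m + 1) + A (m + 2))) 0) := by fun_prop
    have h1 : J m r ≤ ∫ t in (0:ℝ)..(1 / 2), r * r := by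
      unfold J
      apply intervalIntegral.integral_mono_on (by norm_num) (hcont.intervalIntegrable _ _)
        (continuous_const.intervalIntegrable _ _)
      intro t ht
      have c2 := Real.cos_le_one t
      have x2 : r * cos t ≤ r := by nlinarith
      apply mul_le_mul (by linarith) _ (le_max_right _ _) (by linarith)
      apply max_le <;> linarith
    rw [intervalIntegral.integral_const, smul_eq_mul] at h1
    nlinarith

lemma finite_order : ∃ ρ : ℝ, ∀ᶠ r in atTop, characteristic f ⊤ r ≤ r ^ ρ := by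
  obtain ⟨C, hC⟩ := upper
  refine ⟨3, ?_⟩
  filter_upwards [eventually_ge_atTop (40 : ℝ), eventually_ge_atTop (|C| + 1000)] with r hr1 hr2
  obtain ⟨m, hm⟩ := exists_scale hr1
  obtain ⟨f1, f2, f3, f4, f5⟩ := hm.facts
  have h1 := hC m r hm
  have h2 := J_le hm
  have h3 : A (m + 1) * r ≤ r * r := by nlinarith
  have h5 := le_abs_self C
  have h6 := abs_nonneg C
  have h7 : r ^ (3 : ℝ) = r ^ 3 := by
    rw [← Real.rpow_natCast]; norm_num
  rw [h7]
  nlinarith [sq_nonneg r]

lemma J_ge (m : ℕ) : 3 / 8 * ((A (m + 2) - A (m + 1)) * (A (m + 1) + A (m + 2)))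
    ≤ J m (2 * (A (m + 1) + A (m + 2))) := by
  set ρ := A (m + 1) + A (m + 2) with hρ
  have hρ0 : 0 < ρ := add_pos (A_pos _) (A_pos _)
  have hcont : Continuous (fun t : ℝ => (A (m + 2) - A (m + 1)) *
      max (2 * ρ * cos t - (A (m + 1) + A (m + 2))) 0) := by fun_prop
  have h1 : ∫ t in (0:ℝ)..(1 / 2), ((A (m + 2) - A (m + 1)) * (3 / 4 * ρ)) ≤ J m (2 * ρ) := by
    unfold J
    apply intervalIntegral.integral_mono_on (by norm_num) (continuous_const.intervalIntegrable _ _)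
      (hcont.intervalIntegrable _ _)
    intro t ht
    apply mul_le_mul_of_nonneg_left _ (D_nonneg m)
    refine le_trans ?_ (le_max_left _ _)
    have := cos_ge_78 ht.1 ht.2
    rw [← hρ]
    nlinarith
  rw [intervalIntegral.integral_const, smul_eq_mul] at h1
  linarith

lemma not_regular : ¬ ∃ C : ℝ, ∀ᶠ r in atTop,
    characteristic f ⊤ (2 * r) ≤ C * characteristic f ⊤ r := by
  rintro ⟨C, hC⟩
  obtain ⟨C₀, hC₀⟩ := upper
  obtain ⟨r₀, hr₀⟩ := eventually_atTop.mp hC
  obtain ⟨m, hm1, hm2⟩ := ((A_tendsto.eventually_ge_atTop r₀).and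
    (A_tendsto.eventually_ge_atTop (1000 * ((|C| + 1) * (|C₀| + 1))))).exists
  set a := A (m + 1) with ha
  set ρ := A (m + 1) + A (m + 2) with hρ
  have e2 : A (m + 2) = a ^ 2 := A_succ _
  have h1 : A m ≤ a := A_strictMono.monotone (by omega)
  have h4 : 4 ≤ A m := A_ge4 m
  have h16 : 16 ≤ a := by rw [ha, A_succ]; nlinarith
  have hsc1 : Sc m ρ := by
    refine ⟨?_, ?_⟩
    · rw [hρ, e2]; nlinarith
    · have := A_pos (m + 1); have := A_pos (m + 2); linarith
  have hsc2 : Sc m (2 * ρ) := ⟨by linarith [hsc1.1, A_pos (m + 1), A_pos (m + 2)], le_rfl⟩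
  have hρ1 : ρ = a + a ^ 2 := by rw [hρ, e2]
  have hge : r₀ ≤ ρ := by nlinarith
  have k1 := hr₀ ρ hge
  have k2 := hC₀ m ρ hsc1
  rw [J_zero (by nlinarith) (le_of_eq hρ)] at k2
  have k3 := lower sec2 (by positivity) (by nlinarith [Real.pi_gt_three]) hsc2
  have k4 := J_ge m
  rw [← hρ, ← ha, e2] at k4
  have k5 : circleAverage (fun z => log⁺ ‖f z‖) 0 (2 * ρ) ≤ characteristic f ⊤ (2 * ρ) := by
    unfold characteristic
    rw [Pi.add_apply, proximity_top]
    have := logCounting_nonneg (f := f) (e := ⊤) (r := 2 * ρ) (by nlinarith)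
    linarith
  have k6 : 0 ≤ characteristic f ⊤ ρ := characteristic_nonneg (by nlinarith)
  have h7 : π ≤ 3.15 := Real.pi_lt_d2.le
  have k7 : 0 ≤ characteristic f ⊤ (2 * ρ) := characteristic_nonneg (by nlinarith)
  have k8 : 2 * π * circleAverage (fun z => log⁺ ‖f z‖) 0 (2 * ρ)
      ≤ 7 * characteristic f ⊤ (2 * ρ) := by
    calc 2 * π * circleAverage (fun z => log⁺ ‖f z‖) 0 (2 * ρ)
        ≤ 2 * π * characteristic f ⊤ (2 * ρ) := mul_le_mul_of_nonneg_left k5 (by positivity)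
      _ ≤ 7 * characteristic f ⊤ (2 * ρ) := mul_le_mul_of_nonneg_right (by linarith) k7
  have k9 : C * characteristic f ⊤ ρ ≤ |C| * (4 * (a * ρ) + |C₀|) := by
    calc C * characteristic f ⊤ ρ ≤ |C| * characteristic f ⊤ ρ :=
          mul_le_mul_of_nonneg_right (le_abs_self C) k6
      _ ≤ |C| * (4 * (a * ρ) + |C₀|) := by
          apply mul_le_mul_of_nonneg_left _ (abs_nonneg C)
          have := le_abs_self C₀
          linarith
  -- final numerical contradiction
  set c := |C| with hc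
  set d := |C₀| with hd
  have hc0 : 0 ≤ c := abs_nonneg C
  have hd0 : 0 ≤ d := abs_nonneg C₀
  have hA : 1000 * ((c + 1) * (d + 1)) ≤ a := hm2.trans h1
  have hρ16 : 16 ≤ ρ := by nlinarith
  -- lower bound
  have l1 : 1 / 2 * (3 / 8 * ((a ^ 2 - a) * ρ)) - 1 ≤ 7 * (c * (4 * (a * ρ) + d)) := by
    have p1 : 0 ≤ 1 / 128 * (a * (2 * ρ)) := by positivity
    have p2 : characteristic f ⊤ (2 * ρ) ≤ c * (4 * (a * ρ) + d) := k1.trans k9
    linarith
  have l2 : (a ^ 2 - a) * ρ ≥ 15 / 16 * (a * (a * ρ)) := by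
    have : a ^ 2 - a ≥ 15 / 16 * (a * a) := by nlinarith
    nlinarith
  have X : 256 ≤ a * ρ := by nlinarith
  have l3 : 1000 * ((c + 1) * (d + 1)) * (a * ρ) ≤ a * (a * ρ) :=
    mul_le_mul_of_nonneg_right hA (by linarith)
  have l4 : c * (4 * (a * ρ) + d) ≤ 4 * ((c + 1) * (d + 1)) * (a * ρ) := by
    have q1 : d ≤ d * (a * ρ) := by nlinarith
    have q2 : 4 * (a * ρ) + d ≤ 4 * (d + 1) * (a * ρ) := by nlinarith
    calc c * (4 * (a * ρ) + d) ≤ c * (4 * (d + 1) * (a * ρ)) :=
          mul_le_mul_of_nonneg_left q2 hc0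
      _ ≤ (c + 1) * (4 * (d + 1) * (a * ρ)) := by
          apply mul_le_mul_of_nonneg_right (by linarith) (by positivity)
      _ = 4 * ((c + 1) * (d + 1)) * (a * ρ) := by ring
  have l5 : 1 ≤ (c + 1) * (d + 1) := by nlinarith
  have l6 : 256 ≤ (c + 1) * (d + 1) * (a * ρ) := by nlinarith
  nlinarith

end Pool.Agent.Helper552.Nev
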